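import Pool.Agent.Y842.EL.Pair
import Pool.Agent.Y842.EL.LogA

/-!
# Products of consecutive values of the Liouville function, every length (helper842)

Chowla's conjecture (MP_a14ce1_nt) asks for `S_k(x) = ∑_{n ≤ x} λ(n) λ(n + 1) ⋯ λ(n + k - 1) = o(x)` for
every `k`. We prove `|S_k(x)| ≤ (1/2 + o(1)) x` for every `k ≥ 1`, as `x → ∞` outside one set of scales of
logarithmic density zero (independent of `k`), and for logarithmic averages at every scale.
-/

set_option autoImplicit false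

open Finset Filter

namespace Pool.Agent.Results.MP_a14ce1_nt.EveryLengthHalf

open Classical in
/-- `E` has logarithmic density zero -/
def LogDensityZero (E : Set ℕ) : Prop := Tendsto
  (fun X : ℕ => (∑ n ∈ Icc 1 X, if n ∈ E then (1 : ℝ) / n else 0) / Real.log X) atTop (nhds 0)

/-- `λ(a n + c) λ(a (n + d) + c) ⋯ λ(a (n + (k - 1) d) + c)`; for `a = d = 1`, `c = 0` the product
`λ(n) λ(n + 1) ⋯ λ(n + k - 1)` of `k` consecutive values -/
def P (a c d k n : ℕ) : ℝ :=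
  ∏ j ∈ range k, (-1 : ℝ) ^ ArithmeticFunction.cardFactors (a * (n + j * d) + c)

/-- `e(α n)` -/
noncomputable def e (α : ℝ) (n : ℕ) : ℂ := Complex.exp (2 * Real.pi * (α * n) * Complex.I)

lemma e_pow (α : ℝ) (n : ℕ) : e α n = (e α 1) ^ n := by
  unfold e
  rw [← Complex.exp_nat_mul]
  congr 1
  push_cast
  ring

lemma norm_e (α : ℝ) (n : ℕ) : ‖e α n‖ = 1 := by
  unfold e
  have h : (2 * Real.pi * (α * n) * Complex.I : ℂ) = ((2 * Real.pi * (α * n) : ℝ) : ℂ) * Complex.I := by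
    push_cast
    ring
  rw [h, Complex.norm_exp_ofReal_mul_I]

lemma P_eq (a c d k n : ℕ) : P a c d k n = (Pool.Agent.Y842.EL.PL a c d k n : ℝ) := by
  unfold P Pool.Agent.Y842.EL.PL Pool.Agent.H376R2.MR.lam
  push_cast
  rfl

lemma P_abs (a c d k n : ℕ) : |P a c d k n| = 1 := by
  rw [P_eq]
  rcases Pool.Agent.Y842.EL.PL_pm a c d k n with h | h <;> rw [h] <;> simp

lemma sa_le (u v : ℂ) (hu : ‖u‖ ≤ 1) (hv : ‖v‖ ≤ 1) : Pool.Agent.Y842.EL.sa u v ≤ Real.sqrt 2 := by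
  unfold Pool.Agent.Y842.EL.sa
  have h1 := parallelogram_law_with_norm ℝ u v
  have h2 : (‖u + v‖ + ‖u - v‖) ^ 2 ≤ 8 := by
    have h3 : 0 ≤ (‖u + v‖ - ‖u - v‖) ^ 2 := sq_nonneg _
    have h4 := norm_nonneg u
    have h5 := norm_nonneg v
    nlinarith
  have h6 : (‖u + v‖ + ‖u - v‖) / 2 = Real.sqrt (((‖u + v‖ + ‖u - v‖) / 2) ^ 2) :=
    (Real.sqrt_sq (by positivity)).symm
  rw [h6]
  apply Real.sqrt_le_sqrt
  nlinarith

lemma norm_one_add (θ : ℝ) : ‖(1 : ℂ) + Complex.exp (2 * θ * Complex.I)‖ = 2 * |Real.cos θ| := by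
  have h : (1 : ℂ) + Complex.exp (2 * θ * Complex.I) =
      2 * (Real.cos θ : ℂ) * Complex.exp ((θ : ℝ) * Complex.I) := by
    rw [Complex.ofReal_cos, Complex.cos]
    have h1 : Complex.exp (2 * θ * Complex.I) =
        Complex.exp (θ * Complex.I) * Complex.exp (θ * Complex.I) := by
      rw [← Complex.exp_add]
      congr 1
      ring
    have h2 : Complex.exp (θ * Complex.I) * Complex.exp (-θ * Complex.I) = 1 := by
      rw [← Complex.exp_add]
      simp
    rw [h1]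
    linear_combination -h2
  rw [h, norm_mul, norm_mul, Complex.norm_exp_ofReal_mul_I, mul_one, Complex.norm_real]
  simp

lemma norm_one_sub (θ : ℝ) : ‖(1 : ℂ) - Complex.exp (2 * θ * Complex.I)‖ = 2 * |Real.sin θ| := by
  have h : (1 : ℂ) - Complex.exp (2 * θ * Complex.I) =
      (-2 * Complex.I) * (Real.sin θ : ℂ) * Complex.exp ((θ : ℝ) * Complex.I) := by
    rw [Complex.ofReal_sin, Complex.sin]
    have h1 : Complex.exp (2 * θ * Complex.I) =
        Complex.exp (θ * Complex.I) * Complex.exp (θ * Complex.I) := by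
      rw [← Complex.exp_add]
      congr 1
      ring
    have h2 : Complex.exp (θ * Complex.I) * Complex.exp (-θ * Complex.I) = 1 := by
      rw [← Complex.exp_add]
      simp
    rw [h1]
    linear_combination (-1 : ℂ) * h2 +
      (Complex.exp (-θ * Complex.I) * Complex.exp (θ * Complex.I) -
        Complex.exp (θ * Complex.I) * Complex.exp (θ * Complex.I)) * Complex.I_sq
  rw [h, norm_mul, norm_mul, Complex.norm_exp_ofReal_mul_I, mul_one, Complex.norm_real]
  simp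

lemma sa_e (α : ℝ) (d n : ℕ) : Pool.Agent.Y842.EL.sa (e α n) (e α (n + d)) =
    |Real.cos (Real.pi * α * d)| + |Real.sin (Real.pi * α * d)| := by
  have h1 : e α (n + d) = e α n * Complex.exp (2 * ((Real.pi * α * d : ℝ) : ℂ) * Complex.I) := by
    unfold e
    rw [← Complex.exp_add]
    congr 1
    push_cast
    ring
  unfold Pool.Agent.Y842.EL.sa
  rw [h1]
  have h2 : e α n + e α n * Complex.exp (2 * ((Real.pi * α * d : ℝ) : ℂ) * Complex.I) =
      e α n * (1 + Complex.exp (2 * ((Real.pi * α * d : ℝ) : ℂ) * Complex.I)) := by ring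
  have h3 : e α n - e α n * Complex.exp (2 * ((Real.pi * α * d : ℝ) : ℂ) * Complex.I) =
      e α n * (1 - Complex.exp (2 * ((Real.pi * α * d : ℝ) : ℂ) * Complex.I)) := by ring
  rw [h2, h3, norm_mul, norm_mul, norm_e, one_mul, one_mul, norm_one_add, norm_one_sub]
  ring

/-- the sums over `1 ≤ n ≤ N` and over `0 ≤ n < N` -/
lemma sum_shift (g : ℕ → ℂ) (hg : ∀ n, ‖g n‖ ≤ 1) (N : ℕ) :
    ‖∑ n ∈ Icc 1 N, g n‖ ≤ ‖∑ n ∈ range N, g n‖ + 2 := by
  have h1 : ∑ n ∈ Icc 1 N, g n = ∑ n ∈ range N, g n + (g N - g 0) := by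
    have h2 := sum_range_succ g N
    have h3 := sum_range_succ' g N
    have h4 : ∑ n ∈ Icc 1 N, g n = ∑ n ∈ range N, g (n + 1) := by
      rw [range_eq_Ico, sum_Ico_add' g 0 N 1]
      rfl
    rw [h4]
    linear_combination h2 - h3
  rw [h1]
  have h5 := norm_add_le (∑ n ∈ range N, g n) (g N - g 0)
  have h6 := norm_sub_le (g N) (g 0)
  have h7 := hg N
  have h8 := hg 0
  linarith

/-- **Theorem.** There is one set `E` of logarithmic density zero such that for all `a, d, k, q ≥ 1`, `c ≥ 0`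
and `ε > 0` the following holds for every large `N` outside `E`, where `P(n) = ∏_{j < k} λ(a (n + j d) + c)`
(for `a = d = 1`, `c = 0`: the product of `k` consecutive values of `λ`):
* `|∑_{n ≤ N} P(n)| ≤ (1/2 + ε) N`;
* `|∑_{n ≤ N} P(n) e(α n)| ≤ ((|cos (π α d)| + |sin (π α d)|) / 2 + ε) N` for all real `α`;
* `|∑_{n ≤ N} w(n) P(n) e(α n)| ≤ (1/√2 + ε) N` for all `α` and all `w` of period `q`, bounded by `1`.
Moreover the logarithmic averages satisfy `|∑_{n ≤ N} P(n)/n| ≤ (1/2 + ε) log N` for every large `N`. -/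
theorem result :
    (∃ E : Set ℕ, LogDensityZero E ∧ ∀ a c d k q : ℕ, 1 ≤ a → 1 ≤ d → 1 ≤ k → 1 ≤ q → ∀ ε : ℝ, 0 < ε →
      ∃ N₀ : ℕ, ∀ N : ℕ, N₀ ≤ N → N ∉ E →
        |∑ n ∈ Icc 1 N, P a c d k n| ≤ (1 / 2 + ε) * N ∧
        (∀ α : ℝ, ‖∑ n ∈ Icc 1 N, (P a c d k n : ℂ) * e α n‖ ≤
          ((|Real.cos (Real.pi * α * d)| + |Real.sin (Real.pi * α * d)|) / 2 + ε) * N) ∧
        (∀ (α : ℝ) (w : ℕ → ℂ), (∀ n, ‖w n‖ ≤ 1) → (∀ n, w (n + q) = w n) →
          ‖∑ n ∈ Icc 1 N, w n * (P a c d k n : ℂ) * e α n‖ ≤ (1 / Real.sqrt 2 + ε) * N)) ∧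
    (∀ a c d k : ℕ, 1 ≤ a → 1 ≤ d → 1 ≤ k → ∀ ε : ℝ, 0 < ε → ∃ N₀ : ℕ, ∀ N : ℕ, N₀ ≤ N →
      |∑ n ∈ Icc 1 N, P a c d k n / n| ≤ (1 / 2 + ε) * Real.log N) := by
  obtain ⟨F, hF, hmain⟩ := Pool.Agent.Y842.EL.main
  -- the exponential sums
  have hexp : ∀ a c d k : ℕ, 1 ≤ a → 1 ≤ d → 1 ≤ k → ∀ ε : ℝ, 0 < ε →
      ∃ N₀ : ℕ, ∀ N : ℕ, N₀ ≤ N → N ∉ F → ∀ α : ℝ,
        ‖∑ n ∈ range N, (P a c d k n : ℂ) * e α n‖ ≤
          ((|Real.cos (Real.pi * α * d)| + |Real.sin (Real.pi * α * d)|) / 2 + ε) * N := by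
    intro a c d k ha hd hk ε hε
    obtain ⟨N₀, h1⟩ := hmain a c d k 1 ha hd hk le_rfl ε hε
    refine ⟨N₀, fun N hN hNF α => ?_⟩
    have h2 := h1 N hN hNF (fun _ => 1) (e α 1) (norm_e α 1) (fun _ => by simp) (fun _ => rfl)
    have h3 : ∑ n ∈ range N, (fun _ : ℕ => (1 : ℂ)) n * (e α 1) ^ n *
        (Pool.Agent.Y842.EL.PL a c d k n : ℂ) = ∑ n ∈ range N, (P a c d k n : ℂ) * e α n := by
      refine sum_congr rfl fun n _ => ?_
      rw [P_eq, e_pow α n]
      push_cast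
      ring
    rw [h3] at h2
    refine h2.trans (le_of_eq ?_)
    have h4 : ∀ n ∈ range N, Pool.Agent.Y842.EL.sa ((fun _ : ℕ => (1 : ℂ)) n * (e α 1) ^ n)
        ((fun _ : ℕ => (1 : ℂ)) (n + d) * (e α 1) ^ (n + d)) =
        |Real.cos (Real.pi * α * d)| + |Real.sin (Real.pi * α * d)| := by
      intro n _
      simp only [one_mul]
      rw [← e_pow, ← e_pow, sa_e]
    rw [sum_congr rfl h4, sum_const, card_range, nsmul_eq_mul]
    ring
  have hP1 : ∀ a c d k n : ℕ, ‖(P a c d k n : ℂ)‖ = 1 := by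
    intro a c d k n
    rw [Complex.norm_real, Real.norm_eq_abs, P_abs]
  -- the plain sums
  have hpl : ∀ a c d k : ℕ, 1 ≤ a → 1 ≤ d → 1 ≤ k → ∀ ε : ℝ, 0 < ε →
      ∃ N₀ : ℕ, ∀ N : ℕ, N₀ ≤ N → N ∉ F →
        |∑ n ∈ range N, P a c d k n| ≤ (1 / 2 + ε) * N := by
    intro a c d k ha hd hk ε hε
    obtain ⟨N₀, h1⟩ := hexp a c d k ha hd hk ε hε
    refine ⟨N₀, fun N hN hNF => ?_⟩
    have h2 := h1 N hN hNF 0
    have h3 : ∑ n ∈ range N, (P a c d k n : ℂ) * e 0 n = ((∑ n ∈ range N, P a c d k n : ℝ) : ℂ) := by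
      push_cast
      refine sum_congr rfl fun n _ => ?_
      unfold e
      simp
    rw [h3, Complex.norm_real, Real.norm_eq_abs] at h2
    simpa using h2
  refine ⟨⟨F, hF, fun a c d k q ha hd hk hq ε hε => ?_⟩, fun a c d k ha hd hk ε hε => ?_⟩
  · obtain ⟨N₁, h1⟩ := hpl a c d k ha hd hk (ε / 2) (by positivity)
    obtain ⟨N₂, h2⟩ := hexp a c d k ha hd hk (ε / 2) (by positivity)
    obtain ⟨N₃, h3⟩ := hmain a c d k q ha hd hk hq (ε / 2) (by positivity)
    obtain ⟨N₄, h4⟩ := exists_nat_gt (4 / ε)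
    refine ⟨max (max N₁ N₂) (max N₃ N₄), fun N hN hNF => ?_⟩
    have hN1 : N₁ ≤ N := le_trans (le_trans (le_max_left _ _) (le_max_left _ _)) hN
    have hN2 : N₂ ≤ N := le_trans (le_trans (le_max_right _ _) (le_max_left _ _)) hN
    have hN3 : N₃ ≤ N := le_trans (le_trans (le_max_left _ _) (le_max_right _ _)) hN
    have hN4 : N₄ ≤ N := le_trans (le_trans (le_max_right _ _) (le_max_right _ _)) hN
    have h5 : (2 : ℝ) ≤ ε / 2 * N := by
      have h6 : (N₄ : ℝ) ≤ N := by exact_mod_cast hN4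
      rw [div_lt_iff₀ hε] at h4
      nlinarith
    refine ⟨?_, fun α => ?_, fun α w hw hwq => ?_⟩
    · have h6 := h1 N hN1 hNF
      have h7 := sum_shift (fun n => (P a c d k n : ℂ)) (fun n => (hP1 a c d k n).le) N
      have h8 : ∀ s : Finset ℕ, ‖∑ n ∈ s, (P a c d k n : ℂ)‖ = |∑ n ∈ s, P a c d k n| := by
        intro s
        rw [← Complex.ofReal_sum, Complex.norm_real, Real.norm_eq_abs]
      rw [h8, h8] at h7
      linarith
    · have h6 := h2 N hN2 hNF α
      have h7 := sum_shift (fun n => (P a c d k n : ℂ) * e α n) (fun n => by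
        rw [norm_mul, hP1, norm_e, mul_one]) N
      linarith
    · have h6 := h3 N hN3 hNF w (e α 1) (norm_e α 1) hw hwq
      have h7 := sum_shift (fun n => w n * (P a c d k n : ℂ) * e α n) (fun n => by
        rw [norm_mul, norm_mul, hP1, norm_e, mul_one, mul_one]
        exact hw n) N
      have h8 : ∑ n ∈ range N, w n * (e α 1) ^ n * (Pool.Agent.Y842.EL.PL a c d k n : ℂ) =
          ∑ n ∈ range N, w n * (P a c d k n : ℂ) * e α n := by
        refine sum_congr rfl fun n _ => ?_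
        rw [P_eq, e_pow α n]
        push_cast
        ring
      rw [h8] at h6
      have h9 : (1 / 2 : ℝ) * ∑ n ∈ range N, Pool.Agent.Y842.EL.sa (w n * (e α 1) ^ n)
          (w (n + d) * (e α 1) ^ (n + d)) ≤ 1 / Real.sqrt 2 * N := by
        have h10 : ∀ n ∈ range N, Pool.Agent.Y842.EL.sa (w n * (e α 1) ^ n)
            (w (n + d) * (e α 1) ^ (n + d)) ≤ Real.sqrt 2 := by
          intro n _
          apply sa_le
          · rw [norm_mul, ← e_pow, norm_e, mul_one]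
            exact hw n
          · rw [norm_mul, ← e_pow, norm_e, mul_one]
            exact hw _
        have h11 := sum_le_sum h10
        rw [sum_const, card_range, nsmul_eq_mul] at h11
        have h12 : 1 / Real.sqrt 2 = Real.sqrt 2 / 2 := by
          have h13 : Real.sqrt 2 * Real.sqrt 2 = 2 := Real.mul_self_sqrt (by norm_num)
          have h14 : Real.sqrt 2 ≠ 0 := by positivity
          field_simp
          nlinarith
        rw [h12]
        linarith
      have h13 : (1 / Real.sqrt 2 + ε) * (N : ℝ) =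
          1 / Real.sqrt 2 * N + ε / 2 * N + ε / 2 * N := by ring
      rw [h13]
      linarith
  · exact Pool.Agent.Y842.EL.log_avg F hF (P a c d k) (fun n => (P_abs a c d k n).le) (1 / 2)
      (by norm_num) (hpl a c d k ha hd hk) ε hε

end Pool.Agent.Results.MP_a14ce1_nt.EveryLengthHalf
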