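import Pool.Agent.Y844.DS.Len

/-!
# Products of consecutive Liouville values: palindromic lengths and palindromic distances

The estimates for the Fourier transform of the Liouville function and the law of the integers with
mirror-dependent digits are from the starting files (`Pool.Agent.W93`, `Pool.Agent.TH872`).
-/

set_option autoImplicit false

namespace Pool.Agent.Results.MP_a14ce1_nt.PalindromicLengths

open Finset

/-- The Liouville function on the integers, `0` at the integers `m ≤ 0`, with complex values. -/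
noncomputable def lam (m : ℤ) : ℂ := if 1 ≤ m then (-1) ^ ArithmeticFunction.cardFactors m.toNat else 0

/-- The product `λ(n) λ(n + 1) ... λ(n + m - 1)` of `m` consecutive values of the Liouville function. -/
noncomputable def prodL (m n : ℕ) : ℝ := ∏ j ∈ range m, (-1 : ℝ) ^ ArithmeticFunction.cardFactors (n + j)

/-- `v` is a palindrome with exactly `k` digits in base `b`: the digit number `j` (which is
`v / b ^ j % b`) is equal to the digit number `k - 1 - j`, for all `j < k`. -/
def IsPalindrome (b k v : ℕ) : Prop :=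
  b ^ (k - 1) ≤ v ∧ v < b ^ k ∧ ∀ j < k, v / b ^ j % b = v / b ^ (k - 1 - j) % b

open Classical in
/-- The number of the palindromes with `k` digits in base `b` which have the property `E`. -/
noncomputable def num (b k : ℕ) (E : ℕ → Prop) : ℕ :=
  ((range (b ^ k)).filter (fun v => IsPalindrome b k v ∧ E v)).card

/-- `c + κ v`, where `v` is the integer with the following `k` digits in base `b`: `(d i).1` at the position
`i` and `(d i).2` at the mirror position `k - 1 - i`, for `i < k / 2`, and, if `k` is odd, `z` in the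
middle. -/
def value (b k : ℕ) (κ c : ℤ) (d : Fin (k / 2) → ℕ × ℕ) (z : ℕ) : ℤ :=
  c + κ * ((∑ i : Fin (k / 2), ((d i).1 * b ^ (i : ℕ) + (d i).2 * b ^ (k - 1 - (i : ℕ))) + k % 2 * z * b ^ (k / 2) : ℕ) : ℤ)

open Classical in
/-- The probability of the event `E` if the pairs of digits `d i`, `i < k / 2`, and the middle digit `z`
are chosen independently of each other, `d i` is equal to `a` with probability `w i a`, and `z` is equal
to `a` with probability `u a`. -/
noncomputable def Prob (b k : ℕ) (w : ℕ → ℕ × ℕ → ℝ) (u : ℕ → ℝ) (E : (Fin (k / 2) → ℕ × ℕ) → ℕ → Prop) : ℝ :=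
  ∑ d ∈ Fintype.piFinset (fun _ : Fin (k / 2) => range b ×ˢ range b), ∑ z ∈ range b,
    if E d z then (∏ i : Fin (k / 2), w i (d i)) * u z else 0

/-- The numbers `w i a`, `i < k / 2`, are distributions of a pair `a` of digits in base `b`, and, for
`i ≥ 1`, two independent copies of the pair differ in BOTH digits with a probability of at least `η`. -/
structure Pairs (b k : ℕ) (η : ℝ) (w : ℕ → ℕ × ℕ → ℝ) : Prop where
  nonneg : ∀ i < k / 2, ∀ a, 0 ≤ w i a
  sum : ∀ i < k / 2, ∑ a ∈ range b ×ˢ range b, w i a = 1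
  differ : ∀ i < k / 2, 1 ≤ i → η ≤ ∑ a ∈ range b ×ˢ range b, ∑ a' ∈ range b ×ˢ range b,
    if a.1 ≠ a'.1 ∧ a.2 ≠ a'.2 then w i a * w i a' else 0

/-- The integer `h` is good for the weights `g l`, `l < L`:

* if `h ≥ 1`, then `|∑ Y < n ≤ X, λ(n) λ(n + 1) ... λ(n + h - 1)| ≤ (X - Y) / 2 + b ^ k / k ^ U` for all
  `Y ≤ X ≤ B b ^ k` (the product has the LENGTH `h`);
* `|∑ n ≤ x, g l n * λ(a l * n + h)| ≤ b ^ k / k ^ U` for all `l < L` and all `x ≤ B b ^ k / a l` (here one factor
  is displaced by the DISTANCE `h`). -/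
def Good (b B U k L : ℕ) (a : Fin L → ℕ) (g : Fin L → ℕ → ℂ) (h : ℤ) : Prop :=
  (1 ≤ h → ∀ Y X : ℕ, Y ≤ X → X ≤ B * b ^ k →
    |∑ n ∈ Ioc Y X, prodL h.toNat n| ≤ ((X : ℝ) - Y) / 2 + ((b ^ k : ℕ) : ℝ) / (k : ℝ) ^ U) ∧
  ∀ l, ∀ x : ℕ, a l * x ≤ B * b ^ k →
    ‖∑ n ∈ Icc 1 x, g l n * lam (a l * n + h)‖ ≤ ((b ^ k : ℕ) : ℝ) / (k : ℝ) ^ U

/-- Let `b ≥ 2`, `B`, `T`, `U`, `κ ≠ 0` and `η > 0` be fixed, let `k` be large, let `c` be an arbitrary integer
with `|c| ≤ B b ^ k`, and let `g l : ℕ → ℂ`, where `l` ranges over at most `k ^ T` indices, be arbitrary functions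
bounded by `1`, for example all the products `λ(n) λ(n + 1) ⋯ λ(n + j - 1)` of `j ≤ k ^ T` consecutive values; let
`a l ≥ 1` be arbitrary integers.

(1) Let `v` be a random integer with `k` digits in base `b`, such that the pairs formed by the digits at
the positions `i` and `k - 1 - i` are independent of each other for different `i`. Inside of a pair the
digits may depend on each other in an arbitrary way; the distributions of the pairs are arbitrary (and
depend on the position and on `k`), only two independent copies of a pair (with `i ≥ 1`) should differ in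
both digits with a probability of at least `η`. Then, with a probability of at least `1 - 1 / k ^ U`, the
integer `h = c + κ v` is good: the sums of the products of `h` consecutive values of `λ` over all intervals in
`[1, B b ^ k]` are at most half of the length of the interval, up to `b ^ k / k ^ U`, and all the sums of
`g l n * λ(a l * n + h)` are at most `b ^ k / k ^ U`.

(2) In particular `c + κ v` is good for all the palindromes `v` with `k` digits in base `b`, up to a proportion of
at most `1 / k ^ U` of them. -/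
theorem result (b B T U : ℕ) (hb : 2 ≤ b) (κ : ℤ) (hκ : κ ≠ 0) (η : ℝ) (hη : 0 < η) :
    ∃ k₀ : ℕ, ∀ k : ℕ, k₀ ≤ k → ∀ c : ℤ, |c| ≤ B * (b : ℤ) ^ k →
      ∀ L : ℕ, (L : ℝ) ≤ (k : ℝ) ^ T → ∀ g : Fin L → ℕ → ℂ, (∀ l n, ‖g l n‖ ≤ 1) →
      ∀ a : Fin L → ℕ, (∀ l, 1 ≤ a l) →
        (∀ (w : ℕ → ℕ × ℕ → ℝ) (u : ℕ → ℝ), Pairs b k η w → (∀ a, 0 ≤ u a) → ∑ a ∈ range b, u a = 1 →
          Prob b k w u (fun d z => ¬ Good b B U k L a g (value b k κ c d z)) ≤ 1 / (k : ℝ) ^ U) ∧
        (num b k (fun v => ¬ Good b B U k L a g (c + κ * v)) : ℝ) ≤ num b k (fun _ => True) / (k : ℝ) ^ U := by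
  obtain ⟨k₀, h0⟩ := Pool.Agent.TH872.Tr.transfer b B (U + 1) hb κ _
    (Pool.Agent.Y844.DS.cor_mir b B (T + 1) (U + 1) hb Pool.Agent.H373R2.T7.liR Pool.Agent.W93.LM.nice_liR κ hκ) η hη
  obtain ⟨k₁, h1⟩ := Pool.Agent.Y844.DS.badC_len b B U hb
  refine ⟨k₀ + k₁ + 2, fun k hk c hc L hL g hg a ha => ?_⟩
  have hkr : (1 : ℝ) ≤ k := by exact_mod_cast (by omega : 1 ≤ k)
  have e1 := Pool.Agent.Y844.DS.badC_of Pool.Agent.H373R2.T7.liR b B T U k L hL g
    (fun l n _ => (hg l n).trans (one_le_pow₀ hkr)) a ha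
  have e2 := Pool.Agent.Y844.DS.badC_mono _ b B 0 T (U + 1) (U + 1) k (by omega) (by omega) le_rfl _ _ (h1 k (by omega))
    (fun y hy => hy)
  have e3 := Pool.Agent.Y844.DS.badC_mono _ b B T T U (U + 1) k (by omega) le_rfl (by omega) _ _ e1 (fun y hy => hy)
  have e4 := Pool.Agent.Y844.DS.badC_or _ b B T (U + 1) k (by omega) _ _ e2 e3
  have e5 := Pool.Agent.Y844.DS.badC_mono _ b B (T + 1) (T + 1) (U + 1) (U + 1) k (by omega) le_rfl le_rfl _
    (fun y => ¬ Good b B U k L a g y) e4 (by
      intro y hy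
      by_contra hcon
      apply hy
      rw [not_or] at hcon
      obtain ⟨c1, c2⟩ := hcon
      refine ⟨fun hy1 => ?_, not_not.1 c2⟩
      by_contra hcon2
      exact c1 ⟨hy1, hcon2⟩)
  have h2 := h0 k (by omega) c hc _ e5
  have hle : 1 / (k : ℝ) ^ (U + 1) ≤ 1 / (k : ℝ) ^ U :=
    one_div_le_one_div_of_le (by positivity) (pow_le_pow_right₀ hkr (by omega))
  constructor
  · intro w u hw hu hu1
    exact (h2.1 w u ⟨hw.nonneg, hw.sum, hw.differ⟩ hu hu1).trans hle
  · refine h2.2.trans ?_
    rw [div_eq_mul_one_div, div_eq_mul_one_div _ ((k : ℝ) ^ U)]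
    exact mul_le_mul_of_nonneg_left hle (Nat.cast_nonneg _)

end Pool.Agent.Results.MP_a14ce1_nt.PalindromicLengths
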