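import Pool.Agent.Y883.T4.LenMain

/-!
# Products of `k` consecutive values of the Liouville function, for the lengths `k` in every residue class

From the starting files: Davenport's theorem for the Möbius function and for the Liouville function
(`Pool.Agent.H807R2.Dav`, `Pool.Agent.H373R2.T7`), Vaughan's identity, the large sieve, the divisor bound.
From helper893 and helper867: the pairing of neighbouring products (`Pool.Agent.TH893.CL`, `Pool.Agent.Y867.SL`).
From Mathlib: `ArithmeticFunction.cardFactors n`: the number of the prime factors of `n` with multiplicity;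
`Finset.Ioc Y X`: the integers `n` with `Y < n ≤ X`; `Finset.Icc 1 N`: the integers from `1` to `N`;
`k ≡ r [MOD q]`: congruence.
-/

set_option autoImplicit false

namespace Pool.Agent.Results.MP_a14ce1_nt.ResidueClassLengths

open Finset

/-- The product `λ(a n + b) λ(a (n + 1) + b) ... λ(a (n + k - 1) + b)` of the values of the Liouville function at
`k` consecutive terms of a progression. For `a = 1` and `b = 0` it is `λ(n) λ(n + 1) ... λ(n + k - 1)`. -/
noncomputable def prodL (a b k n : ℕ) : ℝ := ∏ j ∈ range k, (-1 : ℝ) ^ ArithmeticFunction.cardFactors (a * (n + j) + b)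

/-- The length `k` is good for the weights `ξ`: on every interval `(Y, X]` with `X ≤ N` the sum of the products of
`k` consecutive values with the weights `ξ` is at most half of the length of the interval, up to `δ`. -/
def Half (a b N : ℕ) (δ : ℝ) (ξ : ℕ → ℂ) (k : ℕ) : Prop :=
  ∀ Y X : ℕ, Y ≤ X → X ≤ N → ‖∑ n ∈ Ioc Y X, ξ n * (prodL a b k n : ℂ)‖ ≤ ((X : ℝ) - Y) / 2 + δ

open Classical in
/-- The number of the integers `1 ≤ k ≤ N` with the property `E`. -/
noncomputable def num (N : ℕ) (E : ℕ → Prop) : ℝ := (((Icc 1 N).filter E).card : ℝ)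

/-- The modulus `q` is good: for every residue class `r` modulo `q`, every `b ≤ N` and every family of at most
`log ^ T N` weights bounded by `1`, all but at most `N / (q log ^ A N)` of the lengths `k ≤ N` with
`k ≡ r` modulo `q` are good for all these weights, with the error term `N / log ^ A N`. -/
def GoodModulus (a A T N q : ℕ) : Prop := ∀ b : ℕ, b ≤ N → ∀ r J : ℕ, (J : ℝ) ≤ Real.log N ^ T →
  ∀ ξ : ℕ → ℕ → ℂ, (∀ l n, ‖ξ l n‖ ≤ 1) →
    num N (fun k => k ≡ r [MOD q] ∧ ¬ ∀ l < J, Half a b N (N / Real.log N ^ A) (ξ l) k) ≤ N / (q * Real.log N ^ A)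

/-- No member of `D` divides `q`. -/
def Free (D : Finset ℕ) (q : ℕ) : Prop := ∀ d ∈ D, ¬ d ∣ q

/-- Almost all the lengths in EVERY residue class modulo `q` have at least half of the cancellation predicted by
Chowla's conjecture, for almost all moduli `q ≤ N ^ (2 / 3 - ρ)` in a strong sense. Let `a ≥ 1`, `ρ > 0`, `A` and
`T` be fixed and let `N` be large. There is a finite set `D` of integers larger than `log ^ A N`, with at most
`X ^ ρ` members up to `X` for all `X ≥ 1`, such that

* all the moduli `1 ≤ q ≤ N ^ (2 / 3 - ρ)` without a divisor in `D` are good: for every residue class `r` modulo `q`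
  and all but `N / (q log ^ A N)` of the lengths `k ≤ N` in the class `r`, the sums
  `∑_{n ∈ I} ξ(n) λ(a n + b) ... λ(a (n + k - 1) + b)` are at most `|I| / 2 + N / log ^ A N` for all the intervals
  `I = (Y, X]`, `X ≤ N`, and for all the `log ^ T N` given weights `ξ`; in particular (`ξ = 1`, `a = 1`, `b = 0`)
  `|S_k(X)| ≤ X / 2 + N / log ^ A N` for all `X ≤ N`;
* for every `X ≤ N`, at most `X ^ 2 log ^ c N / N` of the moduli `q ≤ X` without a divisor in `D` are not good. -/
theorem result (a : ℕ) (ha : 1 ≤ a) (ρ : ℝ) (hρ : 0 < ρ) (A T : ℕ) :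
    ∃ c N₀ : ℕ, ∀ N : ℕ, N₀ ≤ N → ∃ D : Finset ℕ,
      (∀ d ∈ D, Real.log N ^ A < (d : ℝ)) ∧
      (∀ X : ℝ, 1 ≤ X → ((D.filter (fun d : ℕ => (d : ℝ) ≤ X)).card : ℝ) ≤ X ^ ρ) ∧
      (∀ q : ℕ, 1 ≤ q → (q : ℝ) ≤ (N : ℝ) ^ (2 / 3 - ρ) → Free D q → GoodModulus a A T N q) ∧
      ∀ X : ℕ, X ≤ N → num X (fun q => Free D q ∧ ¬ GoodModulus a A T N q) * N ≤ (X : ℝ) ^ 2 * Real.log N ^ c := by
  classical
  obtain ⟨c, N₀, h⟩ := Pool.Agent.Y883.T4.Len.lengths a ha ρ hρ A T
  have key : ∀ N q : ℕ, Pool.Agent.Y883.T4.Len.GoodQ a N A T q ↔ GoodModulus a A T N q := by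
    intro N q
    unfold Pool.Agent.Y883.T4.Len.GoodQ GoodModulus num
    constructor
    · intro h b hb r J hJ ξ hξ
      refine le_trans (le_of_eq ?_) (h b hb r J hJ ξ hξ)
      congr 2
      ext k
      simp only [mem_filter]
      exact Iff.rfl
    · intro h b hb r J hJ ξ hξ
      refine le_trans (le_of_eq ?_) (h b hb r J hJ ξ hξ)
      congr 2
      ext k
      simp only [mem_filter]
      exact Iff.rfl
  refine ⟨c, N₀, fun N hN => ?_⟩
  obtain ⟨D, h1, h2, h3, h4⟩ := h N hN
  refine ⟨D, h1, h2, fun q hq1 hq2 hq3 => (key N q).1 (h3 q hq1 hq2 hq3), fun X hX => ?_⟩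
  have e := h4 X hX ((Icc 1 X).filter (fun q => Free D q ∧ ¬ GoodModulus a A T N q)) (by
    intro q hq
    rw [mem_filter, mem_Icc] at hq
    exact ⟨hq.1.1, hq.1.2, hq.2.1, fun hcon => hq.2.2 ((key N q).1 hcon)⟩)
  unfold num
  convert e

end Pool.Agent.Results.MP_a14ce1_nt.ResidueClassLengths
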