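import Pool.Agent.Y867.SL

/-!
# Products of `k` consecutive values of the Liouville function, for almost all lengths `k` in sparse sets

From the starting files: the exponential sum bounds for the Liouville function with arbitrary powers of the logarithm
(Davenport's theorem, `Pool.Agent.H807R2.Dav`, `Pool.Agent.H373R2.T7`) and the correlations with almost all shifts from
an automatic set, and with shifts with random digits (`Pool.Agent.W93.AU`, `Pool.Agent.W93.LM`).
From helper893: the pairing of neighbouring products (`Pool.Agent.TH893.CL`).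
From Mathlib: `ArithmeticFunction.cardFactors n`: the number of the prime factors of `n` with multiplicity;
`DFA ℕ σ`: the deterministic automata with the set of states `σ` and the alphabet `ℕ`; `M.accepts`: the set of the words
accepted by `M`; `Nat.digits b v`: the digits of `v` in base `b`, from the least significant to the most significant
one; `Finset.Ioc Y X`: the integers `n` with `Y < n ≤ X`; `∃ᶠ N in Filter.atTop`: for arbitrarily large `N`.
-/

set_option autoImplicit false

namespace Pool.Agent.Results.MP_a14ce1_nt.SparseLengths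

open Finset

/-- The product `λ(a n + c) λ(a (n + 1) + c) ... λ(a (n + k - 1) + c)` of the values of the Liouville function at
`k` consecutive terms of a progression. For `a = 1` and `c = 0` it is `λ(n) λ(n + 1) ... λ(n + k - 1)`. -/
noncomputable def prodL (a c k n : ℕ) : ℝ := ∏ j ∈ range k, (-1 : ℝ) ^ ArithmeticFunction.cardFactors (a * (n + j) + c)

/-- The length `k` is good for the weights `ξ`: on every interval `(Y, X]` with `X ≤ Z` the sum of the products of
`k` consecutive values with the weights `ξ` is at most half of the length of the interval, up to `δ`. -/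
def Half (a c Z : ℕ) (δ : ℝ) (ξ : ℕ → ℂ) (k : ℕ) : Prop :=
  ∀ Y X : ℕ, Y ≤ X → X ≤ Z → ‖∑ n ∈ Ioc Y X, ξ n * (prodL a c k n : ℂ)‖ ≤ ((X : ℝ) - Y) / 2 + δ

open Classical in
/-- The number of the integers `0 ≤ v < N` with the property `E` whose base `b` digits are accepted by the
automaton `M`. -/
noncomputable def num {σ : Type} (b : ℕ) (M : DFA ℕ σ) (N : ℕ) (E : ℕ → Prop) : ℝ :=
  (((range N).filter fun v => Nat.digits b v ∈ M.accepts ∧ E v).card : ℝ)

/-- The integer `m + d 0 + d 1 * b + ... + d (K - 1) * b ^ (K - 1)`. -/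
def value (b m : ℕ) {K : ℕ} (d : Fin K → ℕ) : ℕ := m + ∑ j : Fin K, d j * b ^ (j : ℕ)

open Classical in
/-- The probability of the event `E` if the digits `d j`, for `j < K`, are chosen independently of each
other from `{0, ..., H - 1}`, and `d j` is equal to `x` with probability `w j x`. -/
noncomputable def Prob (H K : ℕ) (w : ℕ → ℕ → ℝ) (E : (Fin K → ℕ) → Prop) : ℝ :=
  ∑ d ∈ Fintype.piFinset (fun _ : Fin K => range H), if E d then ∏ j : Fin K, w j (d j) else 0

/-- Almost all the lengths `k` in a sparse set given by digits have at least half of the cancellation predicted by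
Chowla's conjecture, with arbitrary bounded weights and with all powers of the logarithm.

* Let `S` be a `b`-automatic set: the set of the integers `v ≥ 0` whose base `b` digits are accepted by a finite
  automaton `M`. Suppose that `S` is not sparse in the sense of automata: the number of its elements below `N` is not
  bounded by a power of `log N` (it may be as small as `N ^ ε`). Let `a ≥ 1`, `B`, `T`, `U` be fixed, let `N` be
  large, `c ≤ B N`, and let `ξ l : ℕ → ℂ`, where `l` ranges over at most `log ^ T N` indices, be arbitrary weights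
  bounded by `1`. Then all the lengths `k < N` in `S`, with at most `#(S ∩ [0, N)) / log ^ U N` exceptions, satisfy
  `|∑_{n ∈ I} ξ_l(n) λ(a n + c) ... λ(a (n + k - 1) + c)| ≤ |I| / 2 + N / log ^ U N` for all the `l` and all the
  intervals `I = (Y, X]` with `X ≤ B N`.
* Let `k = m + ∑ j, d j * b ^ j` be a random length, `m ≤ B b ^ K`, where the digits `d j`, `j < K`, are independent
  elements of `{0, ..., H - 1}` with arbitrary distributions, none of which takes a value with a probability larger
  than `1 - η` (here `b ≥ 2`, `H`, `B`, `T`, `U` and `η > 0` are fixed, `K` is large and `c ≤ B b ^ K`). Then, with a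
  probability of at least `1 - 1 / K ^ U`,
  `|∑_{n ∈ I} ξ_l(n) λ(n + c) ... λ(n + c + k - 1)| ≤ |I| / 2 + b ^ K / K ^ U` for all the weights `ξ l`, at most
  `K ^ T` in number, and all the intervals `I = (Y, X]` with `X ≤ B b ^ K`. -/
theorem result :
    (∀ (σ : Type) [Finite σ] (b : ℕ), 2 ≤ b → ∀ M : DFA ℕ σ,
      (∀ r : ℕ, ∃ᶠ N : ℕ in Filter.atTop, Real.log N ^ r < num b M N (fun _ => True)) →
      ∀ a : ℕ, 1 ≤ a → ∀ B T U : ℕ, ∃ N₀ : ℕ, ∀ N, N₀ ≤ N → ∀ c : ℕ, c ≤ B * N →
      ∀ L : ℕ, (L : ℝ) ≤ Real.log N ^ T → ∀ ξ : Fin L → ℕ → ℂ, (∀ l n, ‖ξ l n‖ ≤ 1) →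
        num b M N (fun k => ¬ ∀ l, Half a c (B * N) (N / Real.log N ^ U) (ξ l) k) ≤
          num b M N (fun _ => True) / Real.log N ^ U) ∧
    (∀ b H B T U : ℕ, 2 ≤ b → ∀ η : ℝ, 0 < η → ∃ K₀ : ℕ, ∀ K : ℕ, K₀ ≤ K → ∀ w : ℕ → ℕ → ℝ,
      (∀ j < K, (∀ x, 0 ≤ w j x ∧ w j x ≤ 1 - η) ∧ ∑ x ∈ range H, w j x = 1) →
      ∀ c m : ℕ, c ≤ B * b ^ K → m ≤ B * b ^ K →
      ∀ L : ℕ, L ≤ K ^ T → ∀ ξ : Fin L → ℕ → ℂ, (∀ l n, ‖ξ l n‖ ≤ 1) →
        Prob H K w (fun d => ¬ ∀ l, Half 1 c (B * b ^ K) ((b : ℝ) ^ K / (K : ℝ) ^ U) (ξ l) (value b m d)) ≤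
          1 / (K : ℝ) ^ U) := by
  constructor
  · intro σ _ b hb M hM a ha B T U
    classical
    have hnum : ∀ N, num b M N (fun _ => True) = (((range N).filter fun v => Nat.digits b v ∈ M.accepts).card : ℝ) := by
      intro N
      unfold num
      congr 2
      ext v
      simp only [mem_filter, and_true]
    obtain ⟨N₀, h⟩ := Pool.Agent.Y867.SL.auto b hb M
      (fun k => (hM k).mono fun N hN => by rw [hnum] at hN; exact hN) a ha B T U
    refine ⟨N₀, fun N hN c hc L hL ξ hξ => ?_⟩
    rw [hnum N]
    refine le_trans (le_of_eq ?_) (h N hN c hc L hL ξ hξ)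
    unfold num
    congr 2
    ext v
    simp only [mem_filter]
    rfl
  · intro b H B T U hb η hη
    obtain ⟨K₀, h⟩ := Pool.Agent.Y867.SL.rand b H B T U hb η hη
    refine ⟨K₀, fun K hK w hw c m hc hm L hL ξ hξ => ?_⟩
    refine le_trans (le_of_eq ?_) (h K hK w hw c m hc hm L hL ξ hξ)
    unfold Prob Pool.Agent.W93.RD.Str Pool.Agent.W93.RD.pw
    apply sum_congr rfl
    intro d _
    by_cases hd : ∀ l, Half 1 c (B * b ^ K) ((b : ℝ) ^ K / (K : ℝ) ^ U) (ξ l) (value b m d)
    · exact (if_neg (not_not.2 hd)).trans (if_neg (not_not.2 hd)).symm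
    · exact (if_pos hd).trans (if_pos hd).symm

end Pool.Agent.Results.MP_a14ce1_nt.SparseLengths
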